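import Pool.Agent.Lib.MP_daa227_pr_HG.PrI

/-!
# MP_daa227_pr: potentials of order `x⁻²` on Bessel-like chains: the order varies with the critical
point
-/

universe u

open MeasureTheory ProbabilityTheory Set Filter
open scoped ENNReal Topology

namespace Pool.Agent.Results.MP_daa227_pr.InverseSquare

open Pool.Agent.HGI

/-- **Potentials of order `x⁻²` on Bessel-like chains.** -/
theorem result {Ω : Type u} [MeasurableSpace Ω] (P : Measure Ω) [IsProbabilityMeasure P]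
    (p : ℤ → ℤ → ℝ) (hp : IsKernel p) (S : ℕ → Ω → ℤ) (hS : IsMarkovChain P p S)
    (hrec : ∀ᵐ w ∂P, ∃ n, 0 < n ∧ S n w = 0)
    (μ : Measure ℝ) [IsProbabilityMeasure μ]
    (hexp : ∀ t : ℝ, Integrable (fun x => Real.exp (t * x)) μ)
    (hmean : ∫ x, x ∂μ = 0) (hvar : ∫ x, x ^ 2 ∂μ = 1)
    (φ : ℤ → ℝ) (hφ0 : ∀ x, 0 ≤ φ x) (hφne : ∃ x, φ x ≠ 0) (hφ1 : Tendsto φ atTop (𝓝 0))
    (ℓ : ℝ) (hφ2 : Tendsto φ atBot (𝓝 ℓ)) (a : ℝ → ℝ) (ha : Roots p φ ℓ a) :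
    -- the penalised excursions
    (∀ η : ℝ, 0 < η →
      (∃ A : ℝ, ∀ᶠ n : ℕ in atTop, ((2 * n : ℕ) : ℝ) ^ (-A) ≤ penReturn P S φ η (2 * n)) ∧
      (a η < 1 → LoopTail (penReturn P S φ η) (a η))) ∧
    ∃ (F : ℝ → ℝ → ℝ) (hc : ℝ → ℝ),
      (∀ β : ℝ, 0 < β → IsFreeEnergy P S μ φ β (F β) (hc β)) ∧
      Tendsto hc (𝓝[>] 0) (𝓝 0) ∧ ConvexOn ℝ (Ioi 0) hc ∧ ContinuousOn hc (Ioi 0) ∧
      StrictMonoOn hc (Ioi 0) ∧
      -- the order at `β`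
      (∀ β : ℝ, 0 < β →
        (1 / 2 < a (hc β) → InfiniteOrder (F β) (hc β)) ∧
        (¬ MomBdd P S μ φ β (hc β) → InfiniteOrder (F β) (hc β)) ∧
        (MomBdd P S μ φ β (hc β) → AnnealedZero P S μ φ β (hc β) ∧ a (hc β) ≤ 1 / 2 ∧
          HasOrder (F β) (hc β) (1 / a (hc β)))) ∧
      -- small inverse temperatures
      (0 < a 0 → a 0 < 1 / 2 →
        (0 < ℓ → ∃ c M : ℝ, 0 < c ∧ ∀ n : ℕ, negReturn P S n ≤ M * Real.exp (-(c * n))) →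
        ∃ β₀ : ℝ, 0 < β₀ ∧ ∀ β : ℝ, 0 < β → β ≤ β₀ → MomBdd P S μ φ β (hc β)) ∧
      -- large inverse temperatures
      ((∃ h : ℝ, 1 / 2 < a h) → ∃ β₁ : ℝ, ∀ β : ℝ, 0 < β → β₁ ≤ β →
        InfiniteOrder (F β) (hc β)) :=
  key P p hp S hS hrec μ hexp hmean hvar φ hφ0 hφne hφ1 ℓ hφ2 a ha

end Pool.Agent.Results.MP_daa227_pr.InverseSquare
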