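import Pool.Agent.Lib.MP_daa227_pr_HG.PrO

/-!
# MP_daa227_pr: the order of the quenched transition is `1 / α` or infinite
-/

open MeasureTheory ProbabilityTheory Set Filter
open scoped ENNReal Topology

namespace Pool.Agent.Results.MP_daa227_pr.Order

open Pool.Agent.HGO

/-- **The order of the quenched transition is `1 / α` or infinite.** -/
theorem result {Ω : Type*} [MeasurableSpace Ω] (P : Measure Ω) [IsProbabilityMeasure P]
    (p : ℤ → ℤ → ℝ) (hp : IsKernel p) (S : ℕ → Ω → ℤ) (hS : IsMarkovChain P p S) (hrec : ∀ᵐ w ∂P, ∃ n, 0 < n ∧ S n w = 0)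
    (μ : Measure ℝ) [IsProbabilityMeasure μ]
    (hexp : ∀ t : ℝ, Integrable (fun x => Real.exp (t * x)) μ)
    (hmean : ∫ x, x ∂μ = 0) (hvar : ∫ x, x ^ 2 ∂μ = 1)
    (φ : ℤ → ℝ) (hφ0 : ∀ x, 0 ≤ φ x) (hφne : ∃ x, φ x ≠ 0) (hφ1 : Tendsto φ atTop (𝓝 0))
    (ℓ : ℝ) (hφ2 : Tendsto φ atBot (𝓝 ℓ))
    (hcase : (∃ η : ℝ, 0 < η ∧ PolyBelow (penReturn P S φ η)) ∨
      (LightRight p φ ∧ PolyBelow (posReturn P S)) ∨
      (LightRight p φ ∧ LightLeft p φ ∧ PolyBelow (retProb P S)))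
    (β : ℝ) (hβ : 0 < β) :
    ∃ F : ℝ → ℝ,
      (∀ h, ∀ᵐ ω ∂(Measure.infinitePi (fun _ : ℕ => μ)),
        Tendsto (fun N : ℕ => Real.log (Zpin P S φ β h N ω) / N) atTop (𝓝 (F h))) ∧
      (∀ h, Tendsto (fun N : ℕ => ∫ ω, |Real.log (Zpin P S φ β h N ω) / N - F h|
        ∂(Measure.infinitePi (fun _ : ℕ => μ))) atTop (𝓝 0)) ∧
      (∀ h, 0 ≤ F h) ∧
      ∃ hc : ℝ, 0 < hc ∧ (∀ h, 0 < F h ↔ h < hc) ∧
        -- (1) no moment of order larger than one is bounded: infinite order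
        (¬ MomBdd P S μ φ β hc → InfiniteOrder F hc) ∧
        -- (2) otherwise the annealed free energy vanishes at `hc`, and the order is finite if the
        -- excursions penalised at `hc` have some moment
        (MomBdd P S μ φ β hc → AnnealedZero P S μ φ β hc ∧
          ((∃ a : ℝ, 0 < a ∧ Summable (fun n : ℕ => (n : ℝ) ^ a * penReturn P S φ hc n)) →
            ∃ c B : ℝ, 0 < c ∧ ∀ δ : ℝ, 0 < δ → δ ≤ 1 → c * δ ^ B ≤ F (hc - δ))) ∧
        -- (3) a moment of order larger than one half of these excursions: infinite order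
        ((∃ a : ℝ, 1 / 2 < a ∧ Summable (fun n : ℕ => (n : ℝ) ^ a * penReturn P S φ hc n)) →
          InfiniteOrder F hc) ∧
        -- (4) potentials of copolymer type: infinite order
        (0 < ℓ → ((∀ x, φ x ≤ ℓ) ∨ hc * ℓ ≤ Real.log (∫ x, Real.exp (β * ℓ * x) ∂μ)) →
          (∀ ε : ℝ, 0 < ε → ∀ K : ℝ, ∃ n : ℕ, K * Real.exp (-(ε * n)) < negReturn P S n) →
          InfiniteOrder F hc) ∧
        -- (5) exponent `a` of the excursions penalised at `hc`: the order is infinite or `1 / a`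
        (∀ a : ℝ, 0 ≤ a → (LoopTail (penReturn P S φ hc) a ∨ (LoopTail (retProb P S) a ∧
            ((∃ η : ℝ, 0 < η ∧ LoopTail (penReturn P S φ η) a) ∨
              (LightRight p φ ∧ LoopTail (posReturn P S) a) ∨
              (LightRight p φ ∧ LightLeft p φ)))) →
          (a = 0 → InfiniteOrder F hc ∧ AnnealedZero P S μ φ β hc) ∧
          (0 < a → MomBdd P S μ φ β hc → a ≤ 1 / 2 ∧
            Tendsto (fun δ : ℝ => Real.log (F (hc - δ)) / Real.log δ) (𝓝[>] 0)
              (𝓝 (1 / a)))) ∧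
        -- (6) return probabilities of the order `n^(-3/2)`: infinite order
        (AtMost (retProb P S) → ((∃ η : ℝ, 0 < η ∧ AtLeast (penReturn P S φ η)) ∨
            (LightRight p φ ∧ AtLeast (posReturn P S)) ∨
            (LightRight p φ ∧ LightLeft p φ ∧ AtLeast (retProb P S))) →
          InfiniteOrder F hc) :=
  key P p hp S hS hrec μ hexp hmean hvar φ hφ0 hφne hφ1 ℓ hφ2 hcase β hβ

end Pool.Agent.Results.MP_daa227_pr.Order
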