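import Pool.Agent.Lib.MP_daa227_pr.OneStep
import Pool.Agent.Lib.MP_daa227_pr.Smooth
import Pool.Agent.Lib.MP_daa227_pr.Occ
import Pool.Agent.Lib.MP_daa227_pr.Multi
import Pool.Agent.Lib.MP_daa227_pr.HcPos2
import Pool.Agent.Lib.MP_daa227_pr.Positive
import Pool.Agent.Lib.MP_daa227_pr.Crit
import Pool.Agent.Lib.MP_daa227_pr.Mark
import Pool.Agent.Lib.MP_daa227_pr.ConcLim
import Pool.Agent.Lib.MP_daa227_pr.Conf1
import Pool.Agent.Lib.MP_daa227_pr.Conf2

/-!
# MP_daa227_pr: lower and upper bounds on the order of the quenched transition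
-/

open MeasureTheory ProbabilityTheory Set Filter
open scoped ENNReal Topology

namespace Pool.Agent.Results.MP_daa227_pr.OrderWindow

open _root_.MP_daa227_pr

noncomputable section

/-- Transition probabilities of an irreducible nearest-neighbour chain on `ℤ` (holding allowed). -/
structure IsKernel (p : ℤ → ℤ → ℝ) : Prop where
  nonneg : ∀ x y, 0 ≤ p x y
  nearest : ∀ x y, 1 < |y - x| → p x y = 0
  total : ∀ x, p x (x - 1) + p x x + p x (x + 1) = 1
  irreducible : ∀ x y, Relation.ReflTransGen (fun a b => 0 < p a b) x y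

/-- `S` is the Markov chain with transition probabilities `p` started at `0`, on the probability
space `(Ω, P)`. -/
def IsMarkovChain {Ω : Type*} [MeasurableSpace Ω] (P : Measure Ω) (p : ℤ → ℤ → ℝ)
    (S : ℕ → Ω → ℤ) : Prop :=
  (∀ n, Measurable (S n)) ∧ ∀ (n : ℕ) (x : ℕ → ℤ), x 0 = 0 →
    P {w | ∀ i ≤ n, S i w = x i} = ENNReal.ofReal (∏ i ∈ Finset.range n, p (x i) (x (i + 1)))

/-- `P(τ₁ = n)`, where `τ₁` is the first return time to `0`. -/
def retProb {Ω : Type*} [MeasurableSpace Ω] (P : Measure Ω) (S : ℕ → Ω → ℤ) (n : ℕ) : ℝ :=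
  (P {w | S n w = 0 ∧ ∀ i, 0 < i → i < n → S i w ≠ 0}).toReal

/-- The partition function `E[exp (∑_{n=1}^N (β ω_n - h) φ(S_n))]` (the charge `ω_n` of the text is
`ω (n - 1)` here). -/
def Zpin {Ω : Type*} [MeasurableSpace Ω] (P : Measure Ω) (S : ℕ → Ω → ℤ) (φ : ℤ → ℝ) (β h : ℝ)
    (N : ℕ) (ω : ℕ → ℝ) : ℝ :=
  ∫ w, Real.exp (∑ n ∈ Finset.range N, (β * ω n - h) * φ (S (n + 1) w)) ∂P

/-- `φ(x) ≥ c (1 + |x|)^(-θ)` for some `c > 0`. -/
def SlowDecay (φ : ℤ → ℝ) (θ : ℝ) : Prop :=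
  ∃ c : ℝ, 0 < c ∧ ∀ x : ℤ, c * (1 + |(x : ℝ)|) ^ (-θ) ≤ φ x

lemma cross_up {p : ℤ → ℤ → ℝ} (hp : IsKernel p) {x y a : ℤ}
    (h : Relation.ReflTransGen (fun a b => 0 < p a b) x y) (hx : x ≤ a) : a < y → 0 < p a (a + 1) := by
  induction h with
  | refl => intro hy; omega
  | @tail b c _ hbc ih =>
    intro hc
    by_cases hb : a < b
    · exact ih hb
    · push Not at hb
      have h1 : ¬ 1 < |c - b| := fun h1 => by rw [hp.nearest b c h1] at hbc; exact lt_irrefl _ hbc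
      push Not at h1
      rw [abs_le] at h1
      have h2 : b = a := by omega
      have h3 : c = a + 1 := by omega
      rw [h2, h3] at hbc
      exact hbc

lemma cross_down {p : ℤ → ℤ → ℝ} (hp : IsKernel p) {x y a : ℤ}
    (h : Relation.ReflTransGen (fun a b => 0 < p a b) x y) (hx : a ≤ x) : y < a → 0 < p a (a - 1) := by
  induction h with
  | refl => intro hy; omega
  | @tail b c _ hbc ih =>
    intro hc
    by_cases hb : b < a
    · exact ih hb
    · push Not at hb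
      have h1 : ¬ 1 < |c - b| := fun h1 => by rw [hp.nearest b c h1] at hbc; exact lt_irrefl _ hbc
      push Not at h1
      rw [abs_le] at h1
      have h2 : b = a := by omega
      have h3 : c = a - 1 := by omega
      rw [h2, h3] at hbc
      exact hbc

/-- The bundled chain. -/
def IsKernel.chain {p : ℤ → ℤ → ℝ} (hp : IsKernel p) : Chain where
  p := p
  nonneg := hp.nonneg
  near := by
    intro x y hy
    apply hp.nearest
    rw [Finset.mem_Icc] at hy
    rw [lt_abs]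
    omega
  sum_one := by
    intro x
    rw [Occ.sum_Icc]
    exact hp.total x
  up := fun x => cross_up hp (hp.irreducible x (x + 1)) le_rfl (by omega)
  down := fun x => cross_down hp (hp.irreducible x (x - 1)) le_rfl (by omega)

lemma SlowDecay.pos {φ : ℤ → ℝ} {θ : ℝ} (h : SlowDecay φ θ) (x : ℤ) : 0 < φ x := by
  obtain ⟨c, hc, h⟩ := h
  exact lt_of_lt_of_le (by positivity) (h x)

lemma SlowDecay.max_zero {φ : ℤ → ℝ} {θ : ℝ} (h : SlowDecay φ θ) : SlowDecay φ (max θ 0) := by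
  obtain ⟨c, hc, h⟩ := h
  refine ⟨c, hc, fun x => le_trans ?_ (h x)⟩
  apply mul_le_mul_of_nonneg_left _ hc.le
  apply Real.rpow_le_rpow_of_exponent_le
  · have := abs_nonneg (x : ℝ); linarith
  · have := le_max_left θ 0; linarith

lemma bounded_of_lim {φ : ℤ → ℝ} (h : Tendsto φ cofinite (𝓝 0)) : ∃ Φ : ℝ, ∀ x, φ x ≤ Φ := by
  obtain ⟨R, hR⟩ := exists_box h one_pos
  obtain ⟨Φ, hΦ⟩ := ((Finset.Icc (-(R : ℤ)) R).image φ).exists_le
  refine ⟨max 1 Φ, fun x => ?_⟩
  by_cases hx : x ∈ Finset.Icc (-(R : ℤ)) R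
  · exact (hΦ _ (Finset.mem_image_of_mem _ hx)).trans (le_max_right _ _)
  · exact (hR x hx).le.trans (le_max_left _ _)

lemma polyReturn {C : Chain} {α : ℝ}
    (h : Tendsto (fun n : ℕ => Real.log (K0 C (2 * n) 0) / Real.log (2 * n)) atTop (𝓝 (-(1 + α)))) :
    Model.PolyReturn C := by
  have h1 : Tendsto (fun k : ℕ => 2 ^ k) atTop atTop := tendsto_pow_atTop_atTop_of_one_lt (by norm_num)
  have h2 := (h.comp h1).abs
  obtain ⟨V, hV⟩ := h2.bddAbove_range
  have hlog2 : 0 < Real.log 2 := Real.log_pos (by norm_num)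
  refine ⟨max (V * Real.log 2) 1, by positivity, fun k hk => ?_⟩
  obtain ⟨j, rfl⟩ : ∃ j, k = j + 1 := ⟨k - 1, by omega⟩
  have h3 : |Real.log (K0 C (2 * 2 ^ j) 0) / Real.log (2 * ((2 ^ j : ℕ) : ℝ))| ≤ V := hV ⟨j, rfl⟩
  have h4 : (2 : ℝ) * ((2 ^ j : ℕ) : ℝ) = 2 ^ (j + 1) := by push_cast; ring
  have h5 : 2 * 2 ^ j = 2 ^ (j + 1) := by ring
  rw [h4, h5, Real.log_pow, abs_div] at h3
  have hj : (0 : ℝ) < ((j + 1 : ℕ) : ℝ) := by positivity
  have h6 : |((j + 1 : ℕ) : ℝ) * Real.log 2| = ((j + 1 : ℕ) : ℝ) * Real.log 2 := abs_of_pos (by positivity)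
  rw [h6, div_le_iff₀ (by positivity)] at h3
  calc |Real.log (K0 C (2 ^ (j + 1)) 0)| ≤ V * (((j + 1 : ℕ) : ℝ) * Real.log 2) := h3
    _ = (V * Real.log 2) * ((j + 1 : ℕ) : ℝ) := by ring
    _ ≤ _ := mul_le_mul_of_nonneg_right (le_max_left _ _) hj.le

/-- Cost of staying away from `0`, with the exponent `s`: `s = θ / (1 - θ)` if
`φ(x) ≥ c (1 + |x|)^(-θ)`, `θ < 1`; `s = 2 θ / (2 - θ)` if the same holds with `θ < 2` for a
Bessel-like chain; `s = (1 - r) / r` if the cost is a stretched exponential with exponent `r`. -/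
def CostlyEscape {Ω : Type*} [MeasurableSpace Ω] (P : Measure Ω) (p : ℤ → ℤ → ℝ) (S : ℕ → Ω → ℤ)
    (φ : ℤ → ℝ) (s : ℝ) : Prop :=
  (∃ θ : ℝ, θ < 1 ∧ SlowDecay φ θ ∧ s = θ / (1 - θ)) ∨
  (∃ θ κ : ℝ, θ < 2 ∧ SlowDecay φ θ ∧
    (∀ x : ℤ, |p x (x + 1) - p x (x - 1)| ≤ κ / (1 + |(x : ℝ)|)) ∧ s = 2 * θ / (2 - θ)) ∨
  (∃ r : ℝ, 0 < r ∧ (∀ η : ℝ, 0 < η → ∃ A a : ℝ, 0 < a ∧ ∀ n : ℕ,
    ∫ w, Real.exp (-η * ∑ i ∈ Finset.range n, φ (S (i + 1) w)) ∂P ≤
      A * Real.exp (-a * (n : ℝ) ^ r)) ∧ s = (1 - r) / r)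

/-- Cheap excursions, with the exponent `p_*`: `p_* = min 2 (4 θ / (2 + θ))` if
`φ(x) ≤ c (1 + |x|)^(-θ)`, `θ > 0`, for a Bessel-like chain; `p_* = 2 (1 - ξ)` if a return at time
`n` costs at most `exp (A (n^ξ + 1))`. -/
def CheapEscape {Ω : Type*} [MeasurableSpace Ω] (P : Measure Ω) (p : ℤ → ℤ → ℝ) (S : ℕ → Ω → ℤ)
    (φ : ℤ → ℝ) (pstar : ℝ) : Prop :=
  (∃ θ c κ : ℝ, 0 < θ ∧ (∀ x : ℤ, φ x ≤ c * (1 + |(x : ℝ)|) ^ (-θ)) ∧
    (∀ x : ℤ, |p x (x + 1) - p x (x - 1)| ≤ κ / (1 + |(x : ℝ)|)) ∧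
    pstar = min 2 (4 * θ / (2 + θ))) ∨
  (∃ ξ η A : ℝ, 0 ≤ ξ ∧ 0 < η ∧ (∀ n : ℕ, Even n →
    Real.exp (-(A * ((n : ℝ) ^ ξ + 1))) ≤
      ∫ w in {w | S n w = 0}, Real.exp (-η * ∑ i ∈ Finset.range n, φ (S (i + 1) w)) ∂P) ∧
    pstar = 2 * (1 - ξ))

/-- **Bounds on the order of the quenched transition**: at most `max 1 s` if staying away from `0`
is costly with the exponent `s` (and exactly `1`, with linear bounds, if `s < 1`); at least `p_*` if
excursions are cheap with the exponent `p_*`. -/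
theorem result {Ω : Type*} [MeasurableSpace Ω] (P : Measure Ω) [IsProbabilityMeasure P]
    (p : ℤ → ℤ → ℝ) (hp : IsKernel p) (S : ℕ → Ω → ℤ) (hS : IsMarkovChain P p S)
    (hrec : ∀ᵐ w ∂P, ∃ n, 0 < n ∧ S n w = 0)
    (α : ℝ) (htail : Tendsto (fun n : ℕ => Real.log (retProb P S (2 * n)) / Real.log (2 * n)) atTop
      (𝓝 (-(1 + α))))
    (μ : Measure ℝ) [IsProbabilityMeasure μ] (hexp : ∀ t : ℝ, Integrable (fun x => Real.exp (t * x)) μ)
    (hmean : ∫ x, x ∂μ = 0) (hvar : ∫ x, x ^ 2 ∂μ = 1)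
    (φ : ℤ → ℝ) (hφ0 : ∀ x, 0 < φ x) (hφ1 : Tendsto φ atTop (𝓝 0)) (hφ2 : Tendsto φ atBot (𝓝 0))
    (β : ℝ) (hβ : 0 < β) :
    ∃ F : ℝ → ℝ,
      (∀ h, ∀ᵐ ω ∂(Measure.infinitePi (fun _ : ℕ => μ)),
        Tendsto (fun N : ℕ => Real.log (Zpin P S φ β h N ω) / N) atTop (𝓝 (F h))) ∧
      (∀ h, Tendsto (fun N : ℕ => ∫ ω, |Real.log (Zpin P S φ β h N ω) / N - F h|
        ∂(Measure.infinitePi (fun _ : ℕ => μ))) atTop (𝓝 0)) ∧
      (∀ h, 0 ≤ F h) ∧
      ∃ hc : ℝ, 0 < hc ∧ (∀ h, 0 < F h ↔ h < hc) ∧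
        (∀ s : ℝ, CostlyEscape P p S φ s →
          (∀ q : ℝ, max 1 s < q → ∃ c : ℝ, 0 < c ∧ ∃ δ₀ : ℝ, 0 < δ₀ ∧ ∀ δ : ℝ, 0 < δ → δ < δ₀ →
            c * δ ^ q ≤ F (hc - δ)) ∧
          (∀ q : ℝ, (∃ C : ℝ, ∃ δ₀ : ℝ, 0 < δ₀ ∧ ∀ δ : ℝ, 0 < δ → δ < δ₀ →
            F (hc - δ) ≤ C * δ ^ q) → q ≤ max 1 s) ∧
          (s < 1 → ∃ c₁ : ℝ, 0 < c₁ ∧ ∃ c₂ : ℝ, 0 < c₂ ∧ ∀ δ : ℝ, 0 < δ →
            c₁ * δ ≤ F (hc - δ) ∧ F (hc - δ) ≤ c₂ * δ)) ∧
        (∀ pstar : ℝ, (∀ x, p x x = 0) → CheapEscape P p S φ pstar → ∀ q : ℝ, q < pstar →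
          ∃ C : ℝ, ∃ δ₀ : ℝ, 0 < δ₀ ∧ ∀ δ : ℝ, 0 < δ → δ < δ₀ → F (hc - δ) ≤ C * δ ^ q) := by
  set C := hp.chain with hC
  have hSC : IsChain P C.p S := hS
  have hZdet : ∀ (η : ℝ) (n : ℕ), ∫ w, Real.exp (-η * ∑ i ∈ Finset.range n, φ (S (i + 1) w)) ∂P =
      Zf C (Wdet η φ) n (fun _ => 0) 0 := by
    intro η n
    have h1 := Zf_eq_integral P C S hSC φ 0 η n (fun _ => 0)
    have h2 : (fun (a : ℝ) (z : ℤ) => Real.exp ((0 * a - η) * φ z)) = Wdet η φ := by
      funext a z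
      simp [Wdet]
    rw [h2] at h1
    rw [← h1]
    congr 1
    funext w
    congr 1
    rw [Finset.mul_sum]
    apply Finset.sum_congr rfl
    intro i _
    ring
  have hlim : Tendsto φ cofinite (𝓝 0) := by
    rw [Int.cofinite_eq]
    exact hφ2.sup hφ1
  obtain ⟨Φ, hΦ⟩ := bounded_of_lim hlim
  -- the model
  let M : Model :=
    { C := C, μ := μ, prob := inferInstance, exp_mom := hexp, mean := hmean, var := hvar, φ := φ,
      Φ := Φ, φ_pos := hφ0, φ_le := hΦ, φ_lim := hlim, β := β, β_pos := hβ }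
  have hZ : ∀ h N ω, Zpin P S φ β h N ω = M.Zl h N ω := fun h N ω =>
    Zf_eq_integral P C S hSC φ β h N ω
  have hpoly : Model.PolyReturn M.C := by
    apply polyReturn (α := α)
    refine htail.congr' ?_
    filter_upwards [eventually_ge_atTop 1] with n hn
    unfold retProb
    rw [K0_eq_prob P C S hSC (2 * n) (by omega)]
  have hFr0 := M.Fr_nonneg hpoly
  obtain ⟨hc, hc0, hcrit⟩ := M.exists_hc (M.Fr_zero_pos_of_rec' (hasSum_K0 hSC hrec))
  have hFrc : M.Fr hc ≤ 0 := by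
    by_contra hcon
    push Not at hcon
    exact lt_irrefl _ ((hcrit hc).1 hcon)
  have hupp : ∀ δ : ℝ, 0 < δ → M.Fr (hc - δ) ≤ M.Φ * δ := by
    intro δ hδ
    have h1 := M.Fr_lip (h := hc - δ) (h' := hc) (by linarith)
    have h2 : (hc - (hc - δ)) * M.Φ = M.Φ * δ := by ring
    linarith
  -- law of large numbers
  have hmeas : ∀ h N, Measurable (fun ω => Real.log (M.Zl h N ω)) := fun h N => (M.good_Zl h N).meas.log
  have hlip : ∀ h N, LipOn N M.κ (fun ω => Real.log (M.Zl h N ω)) := fun h N =>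
    (M.good_Zl h N).log_lip (M.Zl_pos h N)
  have hmeanlim : ∀ h, Tendsto (fun N : ℕ => M.ΨF h N / N) atTop (𝓝 (M.Fr h)) := fun h =>
    M.mean_limit (hFr0 h)
  refine ⟨M.Fr, fun h => ?_, fun h => ?_, hFr0, hc, hc0, hcrit, fun s hcase => ?_,
    fun pstar hnl hcase q hq => ?_⟩
  · have h1 := conc_ae (μ := M.μ) M.exp_mom (κ := M.κ) (fun N ω => Real.log (M.Zl h N ω)) (hmeas h) (hlip h)
    have h1' : ∀ᵐ ω ∂(Measure.infinitePi (fun _ : ℕ => μ)), Tendsto (fun N : ℕ =>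
      (Real.log (M.Zl h N ω) - ∫ ω', Real.log (M.Zl h N ω') ∂seqLaw M.μ) / N) atTop (𝓝 0) := h1
    filter_upwards [h1'] with ω hω
    have h2 := hω.add (hmeanlim h)
    rw [zero_add] at h2
    refine h2.congr (fun N => ?_)
    rw [hZ, ← add_div]
    congr 1
    unfold Model.ΨF
    ring
  · have h1 := conc_L1 (μ := M.μ) M.exp_mom (κ := M.κ) (fun N ω => Real.log (M.Zl h N ω)) (hmeas h) (hlip h)
    have h2 : Tendsto (fun N : ℕ => |M.ΨF h N / N - M.Fr h|) atTop (𝓝 0) := by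
      have := ((hmeanlim h).sub_const (M.Fr h)).abs
      simpa using this
    have h3 := h1.add h2
    rw [add_zero] at h3
    refine squeeze_zero (fun N => integral_nonneg fun _ => abs_nonneg _) (fun N => ?_) h3
    have hint : Integrable (fun ω => |Real.log (M.Zl h N ω) - M.ΨF h N|) (seqLaw M.μ) :=
      ((M.integrable_logZl h N).sub (integrable_const _)).abs
    have h4 : ∫ ω, |Real.log (Zpin P S φ β h N ω) / N - M.Fr h| ∂(Measure.infinitePi (fun _ : ℕ => μ)) ≤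
        ∫ ω, (|Real.log (M.Zl h N ω) - M.ΨF h N| / N + |M.ΨF h N / N - M.Fr h|) ∂seqLaw M.μ := by
      have hi1 : Integrable (fun ω => |Real.log (M.Zl h N ω) / N - M.Fr h|) (seqLaw M.μ) :=
        (((M.integrable_logZl h N).div_const _).sub (integrable_const _)).abs
      have e : (fun ω => |Real.log (Zpin P S φ β h N ω) / N - M.Fr h|) =
          fun ω => |Real.log (M.Zl h N ω) / N - M.Fr h| := by
        funext ω; rw [hZ]
      rw [e]
      refine integral_mono hi1 ((hint.div_const _).add (integrable_const _)) (fun ω => ?_)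
      have h5 : Real.log (M.Zl h N ω) / N - M.Fr h =
          (Real.log (M.Zl h N ω) - M.ΨF h N) / N + (M.ΨF h N / N - M.Fr h) := by ring
      dsimp only
      rw [h5]
      refine (abs_add_le _ _).trans ?_
      rw [abs_div, Nat.abs_cast]
    refine h4.trans (le_of_eq ?_)
    rw [integral_add (hint.div_const _) (integrable_const _), integral_div]
    simp only [integral_const, probReal_univ, smul_eq_mul, one_mul]
    rfl
  · obtain ⟨pup, hpupdef⟩ : ∃ pup : ℝ, pup = max 1 s := ⟨_, rfl⟩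
    rw [← hpupdef]
    obtain ⟨r, hr, hconf, hpup, hfirst⟩ : ∃ r : ℝ, 0 < r ∧ Confine C φ r ∧
        pup = max 1 ((1 - r) / r) ∧ (s < 1 → 1 / 2 < r) := by
      rcases hcase with ⟨θ, hθ, h, hps⟩ | ⟨θ, κ, hθ, h, hκ, hps⟩ | ⟨r, hr, h, hps⟩
      · obtain ⟨c, hc, h'⟩ := h.max_zero
        have hm0 : 0 ≤ max θ 0 := le_max_right _ _
        have hm : max θ 0 < 1 := max_lt hθ one_pos
        refine ⟨1 - max θ 0, by linarith, confine_general C hc hm0 hm h', ?_, fun hs1 => ?_⟩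
        swap
        · rw [hps, div_lt_one (by linarith)] at hs1
          have : max θ 0 < 1 / 2 := max_lt (by linarith) (by norm_num)
          linarith
        rw [hpupdef, hps]
        rcases le_total 0 θ with h0 | h0
        · rw [max_eq_left h0]
          congr 2
          ring
        · rw [max_eq_right h0, max_eq_left, max_eq_left]
          · norm_num
          · exact (div_nonpos_of_nonpos_of_nonneg h0 (by linarith)).trans zero_le_one
      · obtain ⟨c, hc, h'⟩ := h.max_zero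
        have hm0 : 0 ≤ max θ 0 := le_max_right _ _
        have hm : max θ 0 < 2 := max_lt hθ two_pos
        have h2m : 0 < 2 + max θ 0 := by linarith
        have h2m' : 0 < 2 - max θ 0 := by linarith
        refine ⟨(2 - max θ 0) / (2 + max θ 0), div_pos h2m' h2m, confine_bessel C hc hm0 hm h' hκ, ?_,
          fun hs1 => ?_⟩
        swap
        · rw [hps, div_lt_one (by linarith)] at hs1
          have : max θ 0 < 2 / 3 := max_lt (by linarith) (by norm_num)
          rw [div_lt_div_iff₀ (by norm_num) h2m]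
          linarith
        have e : (1 - (2 - max θ 0) / (2 + max θ 0)) / ((2 - max θ 0) / (2 + max θ 0)) =
            2 * max θ 0 / (2 - max θ 0) := by
          field_simp
          ring
        rw [e, hpupdef, hps]
        rcases le_total 0 θ with h0 | h0
        · rw [max_eq_left h0]
        · rw [max_eq_right h0, max_eq_left, max_eq_left]
          · norm_num
          · exact (div_nonpos_of_nonpos_of_nonneg (by linarith) (by linarith)).trans zero_le_one
      · refine ⟨r, hr, confine_of_zero C hr fun η hη => ?_, by rw [hpupdef, hps], fun hs1 => ?_⟩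
        swap
        · rw [hps, div_lt_one hr] at hs1
          linarith
        obtain ⟨A, a, ha, hA⟩ := h η hη
        refine ⟨A, a, ha, fun n => ?_⟩
        rw [← hZdet]
        exact hA n
    -- reduction to exponents at most one half
    set r' := min r (1 / 2) with hr'
    have hr'0 : 0 < r' := lt_min hr (by norm_num)
    have hr'1 : r' ≤ 1 / 2 := min_le_right _ _
    have hconf' : Confine C φ r' := hconf.mono hr'0 (min_le_left _ _)
    have hqup : ∀ q : ℝ, pup < q → (1 - r') / r' < q := by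
      intro q hq
      rw [hpup] at hq
      have h1 : 1 < q := (le_max_left _ _).trans_lt hq
      have h2 : (1 - r) / r < q := (le_max_right _ _).trans_lt hq
      rw [div_lt_iff₀ hr] at h2
      rw [div_lt_iff₀ hr'0]
      rcases min_choice r (1 / 2) with h | h
      · rw [hr', h]; exact h2
      · rw [hr', h]; linarith
    -- the lower bound
    have hlow : ∀ q : ℝ, pup < q → ∃ c : ℝ, 0 < c ∧ ∃ δ₀ : ℝ, 0 < δ₀ ∧ ∀ δ : ℝ, 0 < δ → δ < δ₀ →
        c * δ ^ q ≤ M.Fr (hc - δ) := by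
      intro q hq
      obtain ⟨R, C₁, hC₁, c₂, hc₂, hc₂1, hgap⟩ := M.gap_bound hr'0 hconf' (η := hc / 4) (by linarith)
      exact M.finite_order hr'0 hr'1 hc0 hcrit hC₁ hc₂ hc₂1 one_pos
        (fun h hh _ γ hγ0 hγ1 L hL x hx y hy =>
          M.gap_mom hC₁ hγ0 hγ1 (hgap h (by linarith) L hL x hx y hy)) (hqup q hq)
    have hfirst' : s < 1 → ∃ c₁ : ℝ, 0 < c₁ ∧ ∃ c₂ : ℝ, 0 < c₂ ∧ ∀ δ : ℝ, 0 < δ →
        c₁ * δ ≤ M.Fr (hc - δ) ∧ M.Fr (hc - δ) ≤ c₂ * δ := by
      intro hs1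
      obtain ⟨c₁, hc₁, hlow1⟩ := M.Fr_lower (hfirst hs1) hconf hc0 hcrit
      have hFrc : M.Fr hc ≤ 0 := by
        by_contra hcon
        push Not at hcon
        exact lt_irrefl _ ((hcrit hc).1 hcon)
      refine ⟨c₁, hc₁, M.Φ, M.Φ_pos, fun δ hδ => ⟨hlow1 δ hδ, ?_⟩⟩
      have h1 := M.Fr_lip (h := hc - δ) (h' := hc) (by linarith)
      have h2 : (hc - (hc - δ)) * M.Φ = M.Φ * δ := by ring
      linarith
    refine ⟨hlow, fun q hq => ?_, hfirst'⟩
    -- the order is at most `pup`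
    obtain ⟨A, δ₀, hδ₀, hA⟩ := hq
    by_contra hcon
    push Not at hcon
    set q' := (pup + q) / 2 with hq'
    have hq'1 : pup < q' := by rw [hq']; linarith
    have hq'2 : 0 < q - q' := by rw [hq']; linarith
    obtain ⟨c₁, hc₁, δ₁, hδ₁, hlow'⟩ := hlow q' hq'1
    have h1 : Tendsto (fun δ : ℝ => A * δ ^ (q - q')) (𝓝[>] 0) (𝓝 0) := by
      have h2 : Tendsto (fun δ : ℝ => δ ^ (q - q')) (𝓝[>] 0) (𝓝 0) := by
        have h3 : ContinuousAt (fun δ : ℝ => δ ^ (q - q')) 0 :=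
          Real.continuousAt_rpow_const 0 (q - q') (Or.inr hq'2.le)
        have h4 := h3.tendsto
        rw [Real.zero_rpow hq'2.ne'] at h4
        exact h4.mono_left nhdsWithin_le_nhds
      have := h2.const_mul A
      rwa [mul_zero] at this
    have h2 : ∀ᶠ δ in 𝓝[>] (0 : ℝ), c₁ ≤ A * δ ^ (q - q') := by
      filter_upwards [Ioo_mem_nhdsGT hδ₀, Ioo_mem_nhdsGT hδ₁] with δ hδ hδ'
      have h3 := (hlow' δ hδ.1 hδ'.2).trans (hA δ hδ.1 hδ.2)
      have h4 : δ ^ q = δ ^ (q - q') * δ ^ q' := by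
        rw [← Real.rpow_add hδ.1]; congr 1; ring
      rw [h4, ← mul_assoc] at h3
      exact le_of_mul_le_mul_right h3 (Real.rpow_pos_of_pos hδ.1 _)
    have h3 := ge_of_tendsto h1 h2
    linarith
  · have hescape : ∀ q : ℝ, 1 < q → q < pstar → ∃ ξ : ℝ, 0 ≤ ξ ∧ Escape C φ ξ ∧ q < 2 * (1 - ξ) := by
      intro q hq1 hq
      rcases hcase with ⟨θ, c, κ, hθ, hφle, hdr, hps⟩ | ⟨ξ, η, A, hξ, hη, hA, hps⟩
      · rw [hps] at hq
        have hq2 : q < 2 := hq.trans_le (min_le_left _ _)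
        have hqθ : q < 4 * θ / (2 + θ) := hq.trans_le (min_le_right _ _)
        rw [lt_div_iff₀ (by linarith)] at hqθ
        have hc : 0 < c := by
          have h1 := (hφ0 0).trans_le (hφle 0)
          simpa using h1
        set m := min θ 2 with hm
        have hmθ : m ≤ θ := min_le_left _ _
        have hm2 : m ≤ 2 := min_le_right _ _
        set b := 2 * q / (4 - q) with hb
        have hb0 : 0 < b := by rw [hb]; exact div_pos (by linarith) (by linarith)
        have hbm : b < m := by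
          rw [hb, hm, lt_min_iff, div_lt_iff₀ (by linarith), div_lt_iff₀ (by linarith)]
          constructor <;> linarith
        set θ' := (m + b) / 2 with hθ'
        have h1 : θ' < 2 := by rw [hθ']; linarith
        have h2 : 0 < θ' := by rw [hθ']; linarith
        have h3 : θ' ≤ θ := by rw [hθ']; linarith
        have h4 : b < θ' := by rw [hθ']; linarith
        refine ⟨(2 - θ') / (2 + θ'), div_nonneg (by linarith) (by linarith), ?_, ?_⟩
        · refine escape_bessel C hnl hc h2 h1 (fun x => (hφ0 x).le) (fun x => (hφle x).trans ?_) hdr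
          apply mul_le_mul_of_nonneg_left _ hc.le
          apply Real.rpow_le_rpow_of_exponent_le
          · have := abs_nonneg (x : ℝ); linarith
          · linarith
        · have h5 : 2 * (1 - (2 - θ') / (2 + θ')) = 4 * θ' / (2 + θ') := by
            field_simp
            ring
          rw [h5, lt_div_iff₀ (by linarith)]
          rw [hb, div_lt_iff₀ (by linarith)] at h4
          linarith
      · refine ⟨ξ, hξ, ⟨η, hη, max A 1, by positivity, fun n hn => ?_⟩, hps ▸ hq⟩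
        rcases Nat.eq_zero_or_pos n with rfl | hn0
        · simp only [Zk, if_true]
          apply Real.exp_le_one_iff.2
          have h1 : 0 ≤ ((0 : ℕ) : ℝ) ^ ξ := by positivity
          have h2 : 0 < max A 1 := by positivity
          have := mul_nonneg h2.le (by linarith : 0 ≤ ((0 : ℕ) : ℝ) ^ ξ + 1)
          linarith
        · rw [← Zk_det_eq_integral P C S hSC φ η hn0]
          refine le_trans ?_ (hA n hn)
          apply Real.exp_le_exp.2
          have h1 : 0 ≤ (n : ℝ) ^ ξ + 1 := by positivity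
          have := mul_le_mul_of_nonneg_right (le_max_left A 1) h1
          linarith
    by_cases hq1 : 1 < q
    · obtain ⟨ξ, hξ, hesc, hqξ⟩ := hescape q hq1 hq
      obtain ⟨A, _, δ₁, hδ₁, hb⟩ := M.smoothing hnl hξ hesc hc0 hFrc (by linarith) hqξ
      exact ⟨A, δ₁, hδ₁, fun δ hδ hδ2 => hb δ hδ hδ2.le⟩
    · push Not at hq1
      refine ⟨M.Φ, 1, one_pos, fun δ hδ hδ1 => (hupp δ hδ).trans ?_⟩
      apply mul_le_mul_of_nonneg_left _ M.Φ_pos.le
      calc δ = δ ^ (1 : ℝ) := (Real.rpow_one δ).symm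
        _ ≤ δ ^ q := Real.rpow_le_rpow_of_exponent_ge hδ hδ1.le hq1

end

end Pool.Agent.Results.MP_daa227_pr.OrderWindow
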