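import Pool.Agent.Lib.MP_daa227_pr_HG.PrW

/-!
# MP_daa227_pr: copolymers with a transition of order exactly `1 / α`; small and large inverse
temperatures in general
-/

universe u

open MeasureTheory ProbabilityTheory Set Filter
open scoped ENNReal Topology

namespace Pool.Agent.Results.MP_daa227_pr.WeakDisorder

open Pool.Agent.HGW

/-- **(A)** Copolymers with a transition of order exactly `1 / α`, for every `0 < α ≤ 1/2`, also at every
inverse temperature: the conjecture of Q1 fails. **(B)** Small and large inverse temperatures, in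
general. -/
theorem result :
    -- (A) the copolymer: chains with loop exponent `α` and order exactly `1 / α`; at every inverse
    -- temperature if the charges have an atom of mass at least `q` at their essential supremum
    (∀ α q : ℝ, 0 < α → α ≤ 1 / 2 → 0 < q → ∃ p : ℤ → ℤ → ℝ, IsKernel p ∧ (∀ x, p x x = 0) ∧
      ∀ {Ω : Type u} [MeasurableSpace Ω] (P : Measure Ω) [IsProbabilityMeasure P]
        (S : ℕ → Ω → ℤ), IsMarkovChain P p S →
        (∀ᵐ w ∂P, ∃ n, 0 < n ∧ S n w = 0) ∧ LoopTail (retProb P S) α ∧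
        ∀ (μ : Measure ℝ) [IsProbabilityMeasure μ],
          (∀ t : ℝ, Integrable (fun x => Real.exp (t * x)) μ) → ∫ x, x ∂μ = 0 →
          ∫ x, x ^ 2 ∂μ = 1 → ∃ (F : ℝ → ℝ → ℝ) (hc : ℝ → ℝ) (B : Set ℝ),
            (∀ β : ℝ, 0 < β → IsFreeEnergy P S μ cop β (F β) (hc β)) ∧
            (∀ β : ℝ, β ∈ B ↔ MomBdd P S μ cop β (Real.log (∫ x, Real.exp (β * x) ∂μ))) ∧
            (∀ β ∈ B, ∀ β' : ℝ, 0 < β' → β' ≤ β → β' ∈ B) ∧
            (∃ β₀ : ℝ, 0 < β₀ ∧ ∀ β : ℝ, 0 < β → β ≤ β₀ → β ∈ B) ∧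
            (∀ β : ℝ, 0 < β → β ∈ B → hc β = Real.log (∫ x, Real.exp (β * x) ∂μ) ∧
              HasOrder (F β) (hc β) (1 / α)) ∧
            (∀ β : ℝ, 0 < β → β ∉ B → InfiniteOrder (F β) (hc β)) ∧
            (NoTopAtom μ → ∃ β₁ : ℝ, ∀ β : ℝ, 0 < β → β₁ ≤ β → β ∉ B) ∧
            ((∃ A : ℝ, μ (Ioi A) = 0 ∧ ENNReal.ofReal q ≤ μ {A}) →
              ∀ β : ℝ, 0 < β → β ∈ B)) ∧
    -- (B) general chains and potentials
    (∀ {Ω : Type u} [MeasurableSpace Ω] (P : Measure Ω) [IsProbabilityMeasure P]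
      (p : ℤ → ℤ → ℝ) (S : ℕ → Ω → ℤ) (μ : Measure ℝ) [IsProbabilityMeasure μ]
      (φ : ℤ → ℝ) (ℓ : ℝ), IsKernel p → IsMarkovChain P p S →
      (∀ᵐ w ∂P, ∃ n, 0 < n ∧ S n w = 0) →
      (∀ t : ℝ, Integrable (fun x => Real.exp (t * x)) μ) → ∫ x, x ∂μ = 0 → ∫ x, x ^ 2 ∂μ = 1 →
      (∀ x, 0 ≤ φ x) → (∃ x, φ x ≠ 0) → Tendsto φ atTop (𝓝 0) → Tendsto φ atBot (𝓝 ℓ) →
      PolyCase P S p φ → Conclusion P S p μ φ) :=
  key

end Pool.Agent.Results.MP_daa227_pr.WeakDisorder
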